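import Mathlib

namespace Pool.Agent.Results.MP_cb4cd2_al.ForestSLP

open MvPolynomial

universe u

variable {K : Type u} [Field K] {V : Type} [DecidableEq V]

def U (K : Type u) [Field K] (V : Type) [DecidableEq V] : Module.End K (Finset V → K) where
  toFun g := fun t => ∑ v ∈ t, g (t.erase v)
  map_add' g h := by funext t; simp [Finset.sum_add_distrib]
  map_smul' c g := by funext t; simp [Finset.mul_sum]

lemma U_apply (g : Finset V → K) (t : Finset V) : U K V g t = ∑ v ∈ t, g (t.erase v) := rfl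

lemma Upow_succ (j : ℕ) (g : Finset V → K) (t : Finset V) :
    (U K V ^ (j + 1)) g t = ∑ v ∈ t, (U K V ^ j) g (t.erase v) := by
  rw [pow_succ', Module.End.mul_apply, U_apply]

def Lev (i : ℕ) (g : Finset V → K) : Prop := ∀ t, t.card ≠ i → g t = 0

lemma Lev.pow {i : ℕ} {g : Finset V → K} (h : Lev i g) (j : ℕ) : Lev (i + j) ((U K V ^ j) g) := by
  induction j with
  | zero => simpa using h
  | succ j ih =>
    intro t ht
    rw [Upow_succ]
    refine Finset.sum_eq_zero fun v hv => ih _ ?_
    have := Finset.card_erase_add_one hv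
    omega

lemma loc {g g' : Finset V → K} (j : ℕ) (t : Finset V) (h : ∀ s ⊆ t, g s = g' s) :
    (U K V ^ j) g t = (U K V ^ j) g' t := by
  induction j generalizing t with
  | zero => simpa using h t subset_rfl
  | succ j ih =>
    rw [Upow_succ, Upow_succ]
    exact Finset.sum_congr rfl fun v _ => ih _ fun s hs => h s (hs.trans (Finset.erase_subset _ _))

lemma loc0 {g : Finset V → K} (j : ℕ) (t : Finset V) (h : ∀ s ⊆ t, g s = 0) :
    (U K V ^ j) g t = 0 := by
  rw [loc (g' := 0) j t h]; simp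

def up (v : V) (g : Finset V → K) : Finset V → K := fun t => if v ∈ t then 0 else g (insert v t)

lemma ins0 (g : Finset V → K) (v : V) (t : Finset V) (hv : v ∉ t) (j : ℕ) :
    (U K V ^ j) g (insert v t) = j * (U K V ^ (j - 1)) g t + (U K V ^ j) (up v g) t := by
  induction j generalizing t with
  | zero => simp [up, hv]
  | succ j ih =>
    rw [Upow_succ, Finset.sum_insert hv, Finset.erase_insert hv, Upow_succ]
    have : ∀ w ∈ t, (U K V ^ j) g ((insert v t).erase w) =
        j * (U K V ^ (j - 1)) g (t.erase w) + (U K V ^ j) (up v g) (t.erase w) := by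
      intro w hw
      rw [Finset.erase_insert_of_ne (by rintro rfl; exact hv hw), ih _ (by simp [hv])]
    rw [Finset.sum_congr rfl this, Finset.sum_add_distrib, ← Finset.mul_sum]
    rcases j with _ | j
    · simp
    · rw [Nat.add_sub_cancel, ← Upow_succ, Nat.add_sub_cancel]; push_cast; ring

lemma Lev.up {i : ℕ} {g : Finset V → K} (h : Lev (i + 1) g) (v : V) : Lev i (up v g) := by
  intro t ht
  unfold ForestSLP.up
  split_ifs with hv
  · rfl
  · exact h _ (by rw [Finset.card_insert_of_notMem hv]; omega)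

lemma sub_insert_cases {v : V} {F t : Finset V} (_hv : v ∉ F) (ht : t ⊆ insert v F) :
    t ⊆ F ∨ ∃ s ⊆ F, v ∉ s ∧ t = insert v s := by
  by_cases h : v ∈ t
  · exact Or.inr ⟨t.erase v, Finset.subset_insert_iff.mp ht, by simp, (Finset.insert_erase h).symm⟩
  · exact Or.inl ((Finset.subset_insert_iff_of_notMem h).mp ht)

lemma B_inj [CharZero K] (F : Finset V) : ∀ (i j : ℕ) (g : Finset V → K), 2 * i + j ≤ F.card →
    Lev i g → (∀ t ⊆ F, (U K V ^ j) g t = 0) → ∀ t ⊆ F, g t = 0 := by
  induction F using Finset.induction_on with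
  | empty =>
    intro i j g h _ h2
    obtain rfl : j = 0 := by simp at h; omega
    simpa using h2
  | insert v F hv ih =>
    intro i j g h hg h2
    rw [Finset.card_insert_of_notMem hv] at h
    rcases j with _ | j
    · simpa using h2
    have e1 : ∀ t ⊆ F, ((j : K) + 1) * (U K V ^ j) g t + (U K V ^ (j + 1)) (up v g) t = 0 := by
      intro t ht
      have := h2 (insert v t) (Finset.insert_subset_insert _ ht)
      rw [ins0 g v t (fun h => hv (ht h))] at this
      simpa using this
    have e2 : ∀ t ⊆ F, up v g t = 0 := by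
      rcases i with _ | i
      · intro t ht
        have hvt : v ∉ t := fun h => hv (ht h)
        simp only [up, hvt, if_false]
        exact hg _ (by rw [Finset.card_insert_of_notMem hvt]; omega)
      · refine ih i (j + 2) _ (by omega) (hg.up v) fun t ht => ?_
        have h3 := h2 t (ht.trans (Finset.subset_insert _ _))
        rw [Upow_succ] at h3 ⊢
        have : ∀ w ∈ t, (U K V ^ (j + 1)) (up v g) (t.erase w) =
            -((j : K) + 1) * (U K V ^ j) g (t.erase w) := fun w _ => by
          linear_combination e1 (t.erase w) ((Finset.erase_subset _ _).trans ht)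
        rw [Finset.sum_congr rfl this, ← Finset.mul_sum, h3, mul_zero]
    have e3 : ∀ t ⊆ F, g t = 0 := by
      refine ih i j g (by omega) hg fun t ht => ?_
      have := e1 t ht
      rw [loc0 _ t (fun s hs => e2 s (hs.trans ht)), add_zero] at this
      exact (mul_eq_zero.mp this).resolve_left (Nat.cast_add_one_ne_zero j)
    intro t ht
    rcases sub_insert_cases hv ht with h | ⟨s, hs, hvs, rfl⟩
    · exact e3 t h
    · simpa [up, hvs] using e2 s hs

def glue (v : V) (a b : Finset V → K) : Finset V → K := fun t => if v ∈ t then b (t.erase v) else a t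

lemma glue_pow1 (v : V) (a b : Finset V → K) (j : ℕ) (t : Finset V) (hv : v ∉ t) :
    (U K V ^ j) (glue v a b) t = (U K V ^ j) a t :=
  loc j t fun s hs => by simp [glue, show v ∉ s from fun h => hv (hs h)]

lemma glue_pow2 (v : V) (a b : Finset V → K) (j : ℕ) (t : Finset V) (hv : v ∉ t) :
    (U K V ^ j) (glue v a b) (insert v t) = j * (U K V ^ (j - 1)) a t + (U K V ^ j) b t := by
  rw [ins0 _ _ _ hv, glue_pow1 _ _ _ _ _ hv]
  congr 1
  refine loc j t fun s hs => ?_
  have : v ∉ s := fun h => hv (hs h)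
  simp [glue, up, this]

lemma Lev.glue {i : ℕ} {a b : Finset V → K} (ha : Lev (i + 1) a) (hb : Lev i b) (v : V) :
    Lev (i + 1) (glue v a b) := by
  intro t ht
  unfold ForestSLP.glue
  split_ifs with hv
  · have := Finset.card_erase_add_one hv
    exact hb _ (by omega)
  · exact ha _ ht

lemma B_surj [CharZero K] (F : Finset V) : ∀ (i j : ℕ) (h : Finset V → K), F.card ≤ 2 * i + j →
    Lev (i + j) h → ∃ g, Lev i g ∧ ∀ t ⊆ F, (U K V ^ j) g t = h t := by
  induction F using Finset.induction_on with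
  | empty =>
    intro i j h _ hh
    rcases j with _ | j
    · exact ⟨h, hh, by simp⟩
    · refine ⟨0, fun _ _ => rfl, fun t ht => ?_⟩
      rw [Finset.subset_empty.mp ht, hh ∅ (by simp)]; simp
  | insert v F hv ih =>
    intro i j h hF hh
    rw [Finset.card_insert_of_notMem hv] at hF
    rcases j with _ | j
    · exact ⟨h, hh, by simp⟩
    have hj : ((j : K) + 1) ≠ 0 := Nat.cast_add_one_ne_zero j
    obtain ⟨a0, ha0, ea0⟩ := ih i j (((j : K) + 1)⁻¹ • up v h) (by omega)
      (fun t ht => by simp [Lev.up (i := i + j) hh v t ht])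
    rcases i with _ | i
    · refine ⟨glue v a0 0, fun t ht => ?_, fun t ht => ?_⟩
      · unfold glue
        split_ifs
        · rfl
        · exact ha0 t ht
      · rcases sub_insert_cases hv ht with h1 | ⟨s, hs, hvs, rfl⟩
        · have := Finset.card_le_card h1
          rw [glue_pow1 _ _ _ _ _ (fun h => hv (h1 h)), ha0.pow _ t (by omega), hh t (by omega)]
        · rw [glue_pow2 _ _ _ _ _ hvs, Nat.add_sub_cancel, ea0 s hs]
          simp [up, hvs, hj]
    · obtain ⟨b, hb, eb⟩ := ih i (j + 2) ((U K V ^ (j + 1)) a0 - h) (by omega)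
        (fun t ht => by simp [ha0.pow (j + 1) t (by omega), hh t (by omega)])
      refine ⟨glue v (a0 - U K V b) (((j : K) + 1) • b), Lev.glue (fun t ht => ?_)
        (fun t ht => by simp [hb t ht]) v, fun t ht => ?_⟩
      · have := hb.pow 1 t ht
        simp [ha0 t ht, ← this]
      · rcases sub_insert_cases hv ht with h1 | ⟨s, hs, hvs, rfl⟩
        · have := eb t h1
          rw [pow_succ _ (j + 1), Module.End.mul_apply] at this
          rw [glue_pow1 _ _ _ _ _ (fun h => hv (h1 h)), map_sub, Pi.sub_apply, this]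
          simp
        · rw [glue_pow2 _ _ _ _ _ hvs, Nat.add_sub_cancel, map_sub, Pi.sub_apply, ea0 s hs, map_smul,
            pow_succ _ j, Module.End.mul_apply]
          simp [up, hvs, mul_sub, hj]

lemma rel_surj [CharZero K] (i j : ℕ) (H : Finset V) (F : Finset V) : F.card + 1 ≤ 2 * i + j →
    ∀ (h : Finset V → K), Lev (i + j) h → (∀ t ⊆ F, t ⊆ H → h t = 0) →
      ∃ g, Lev i g ∧ (∀ t, t ⊆ H ∨ ¬ t ⊆ F → g t = 0) ∧ ∀ t ⊆ F, (U K V ^ j) g t = h t := by
  rcases i with _ | i
  · intro hF h hh _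
    refine ⟨0, fun _ _ => rfl, fun _ _ => rfl, fun t ht => ?_⟩
    have := Finset.card_le_card ht
    rw [hh t (by omega)]; simp
  induction F using Finset.strongInduction with
  | H F ih =>
    intro hF h hh h0
    by_cases hFH : F ⊆ H
    · exact ⟨0, fun _ _ => rfl, fun _ _ => rfl, fun t ht => by simp [h0 t ht (ht.trans hFH)]⟩
    obtain ⟨v, hvF, hvH⟩ := Finset.not_subset.mp hFH
    have hc := Finset.card_erase_add_one hvF
    obtain ⟨a, ha, ha0, ea⟩ := ih (F.erase v) (Finset.erase_ssubset hvF) (by omega) h hh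
      (fun t ht => h0 t (ht.trans (Finset.erase_subset _ _)))
    obtain ⟨b, hb, eb⟩ := B_surj (F.erase v) i j (up v h - (j : K) • (U K V ^ (j - 1)) a) (by omega)
      (fun t ht => by
        have h1 : up v h t = 0 := Lev.up (i := i + j) (by rwa [add_right_comm] at hh) v t ht
        rcases j with _ | j
        · simp [h1]
        · simp [h1, ha.pow j t (by omega)])
    let b' : Finset V → K := fun t => if t ⊆ F.erase v then b t else 0
    refine ⟨glue v a b', Lev.glue ha (fun t ht => by simp [b', hb t ht]) v, fun t ht => ?_,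
      fun t ht => ?_⟩
    · unfold glue
      split_ifs with hvt
      · rcases ht with ht | ht
        · exact absurd (ht hvt) hvH
        · refine if_neg fun h => ht ?_
          rw [← Finset.insert_erase hvt, ← Finset.insert_erase hvF]
          exact Finset.insert_subset_insert _ h
      · exact ha0 t (ht.imp id fun h h' => h (h'.trans (Finset.erase_subset _ _)))
    · rw [← Finset.insert_erase hvF] at ht
      rcases sub_insert_cases (by simp) ht with h1 | ⟨s, hs, hvs, rfl⟩
      · rw [glue_pow1 _ _ _ _ _ (fun h => by simpa using h1 h), ea t h1]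
      · rw [glue_pow2 _ _ _ _ _ hvs, loc (g := b') (g' := b) j s
          (fun r hr => by simp [b', hr.trans hs]), eb s hs]
        simp [up, hvs]

/-- A simplicial complex: a family of subsets closed under taking subsets. -/
def IsComplex {n : ℕ} (D : Finset (Finset (Fin n))) : Prop := ∀ s ∈ D, ∀ t ⊆ s, t ∈ D

/-- A facet is a maximal face. -/
def IsFacet {n : ℕ} (D : Finset (Finset (Fin n))) (F : Finset (Fin n)) : Prop :=
  F ∈ D ∧ ∀ G ∈ D, F ⊆ G → G = F

/-- All facets have the same dimension. -/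
def IsPure {n : ℕ} (D : Finset (Finset (Fin n))) : Prop :=
  ∀ F G, IsFacet D F → IsFacet D G → F.card = G.card

/-- `F` is a leaf of the complex whose set of facets is `T`. -/
def IsLeaf {n : ℕ} (T : Finset (Finset (Fin n))) (F : Finset (Fin n)) : Prop :=
  F ∈ T ∧ (T = {F} ∨ ∃ G ∈ T, G ≠ F ∧ ∀ F' ∈ T, F' ≠ F → F ∩ F' ⊆ F ∩ G)

/-- Two facets lie in the same connected component. -/
def SameComp {n : ℕ} (D : Finset (Finset (Fin n))) (F G : Finset (Fin n)) : Prop :=
  Relation.ReflTransGen (fun A B => IsFacet D A ∧ IsFacet D B ∧ (A ∩ B).Nonempty) F G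

/-- Every connected component is a simplicial tree: every nonempty set of facets of one
component generates a subcomplex with a leaf. -/
def IsForest {n : ℕ} (D : Finset (Finset (Fin n))) : Prop :=
  ∀ T : Finset (Finset (Fin n)), T.Nonempty → (∀ F ∈ T, IsFacet D F) →
    (∀ F ∈ T, ∀ G ∈ T, SameComp D F G) → ∃ F, IsLeaf T F

/-- The ideal `N(D) + (x_1^2, ..., x_n^2)`. -/
noncomputable def AI (K : Type u) [Field K] {n : ℕ} (D : Finset (Finset (Fin n))) :
    Ideal (MvPolynomial (Fin n) K) :=
  Ideal.span {f | ∃ s : Finset (Fin n), s ∉ D ∧ f = ∏ v ∈ s, X v} ⊔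
    Ideal.span (Set.range fun i => X i ^ 2)

/-- The degree `i` piece of `S / I`. -/
def piece {n : ℕ} (I : Ideal (MvPolynomial (Fin n) K)) (i : ℕ) : Set (MvPolynomial (Fin n) K ⧸ I) :=
  Ideal.Quotient.mk I '' {p | p.IsHomogeneous i}

noncomputable def ind (s : Finset V) : V →₀ ℕ := ∑ v ∈ s, Finsupp.single v 1

lemma ind_apply (s : Finset V) (v : V) : ind s v = if v ∈ s then 1 else 0 := by
  simp [ind, Finsupp.finsetSum_apply, Finsupp.single_apply]

lemma ind_inj {s t : Finset V} (h : ind s = ind t) : s = t := by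
  ext v
  have := congrArg (fun f => f v) h
  simp only [ind_apply] at this
  by_cases h1 : v ∈ s <;> by_cases h2 : v ∈ t <;> simp_all

omit [DecidableEq V] in
lemma ind_degree (s : Finset V) : (ind s).degree = s.card := by
  simp [ind, map_sum]

omit [DecidableEq V] in
lemma prod_X_eq (s : Finset V) : (∏ v ∈ s, X v : MvPolynomial V K) = monomial (ind s) 1 := by
  rw [ind, monomial_sum_one]; rfl

lemma mem_AI {n : ℕ} {D : Finset (Finset (Fin n))} (hD : IsComplex D) (f : MvPolynomial (Fin n) K) :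
    f ∈ AI K D ↔ ∀ t ∈ D, coeff (ind t) f = 0 := by
  have e : AI K D = Ideal.span ((fun s => monomial s (1 : K)) ''
      ({m | ∃ s ∉ D, m = ind s} ∪ Set.range fun i => Finsupp.single i 2)) := by
    rw [AI, Set.image_union, Ideal.span_union]
    congr 2
    · ext g
      simp only [prod_X_eq, Set.mem_setOf_eq, Set.mem_image]
      constructor
      · rintro ⟨s, hs, rfl⟩; exact ⟨_, ⟨s, hs, rfl⟩, rfl⟩
      · rintro ⟨_, ⟨s, hs, rfl⟩, rfl⟩; exact ⟨s, hs, rfl⟩
    · rw [← Set.range_comp]
      congr 1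
      funext i
      exact X_pow_eq_monomial
  rw [e, mem_ideal_span_monomial_image]
  constructor
  · intro h t ht
    by_contra h0
    obtain ⟨m, hm, hle⟩ := h _ (mem_support_iff.mpr h0)
    rcases hm with ⟨s, hs, rfl⟩ | ⟨i, rfl⟩
    · refine hs (hD t ht s fun v hv => ?_)
      have := hle v
      by_contra h1
      simp [ind_apply, hv, h1] at this
    · have := hle i
      rw [ind_apply] at this
      split_ifs at this <;> simp at this
  · intro h m hm
    by_cases h2 : ∃ v, 2 ≤ m v
    · obtain ⟨v, hv⟩ := h2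
      exact ⟨_, Or.inr ⟨v, rfl⟩, Finsupp.single_le_iff.mpr hv⟩
    · push Not at h2
      have e2 : m = ind m.support := by
        ext v
        have := h2 v
        rw [ind_apply]
        split_ifs with hv <;> simp at hv <;> omega
      refine ⟨m, Or.inl ⟨m.support, fun hD' => ?_, e2⟩, le_rfl⟩
      exact mem_support_iff.mp hm (e2 ▸ h _ hD')

lemma coeff_L {n : ℕ} (j : ℕ) (f : MvPolynomial (Fin n) K) (t : Finset (Fin n)) :
    coeff (ind t) ((∑ i, X i) ^ j * f) = (U K (Fin n) ^ j) (fun s => coeff (ind s) f) t := by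
  induction j generalizing t with
  | zero => simp
  | succ j ih =>
    rw [pow_succ', mul_assoc, Finset.sum_mul, coeff_sum, Upow_succ]
    simp only [coeff_X_mul']
    rw [← Finset.sum_filter]
    refine Finset.sum_congr (by ext v; simp [ind_apply]) fun v hv => ?_
    rw [← ih]
    congr 1
    ext w
    by_cases hw : w = v
    · subst hw; simp [ind_apply, hv]
    · simp [ind_apply, hw, Finsupp.single_apply, Ne.symm hw]

lemma exists_facet {n : ℕ} {D : Finset (Finset (Fin n))} {t : Finset (Fin n)} (ht : t ∈ D) :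
    ∃ F, IsFacet D F ∧ t ⊆ F := by
  obtain ⟨F, hF, hmax⟩ := (D.filter (t ⊆ ·)).exists_max_image Finset.card ⟨t, by simp [ht]⟩
  rw [Finset.mem_filter] at hF
  refine ⟨F, ⟨hF.1, fun G hG hFG => ?_⟩, hF.2⟩
  exact (Finset.eq_of_subset_of_card_le hFG
    (hmax G (Finset.mem_filter.mpr ⟨hG, hF.2.trans hFG⟩))).symm

lemma SameComp.symm {n : ℕ} {D : Finset (Finset (Fin n))} {F G : Finset (Fin n)}
    (h : SameComp D F G) : SameComp D G F := by
  induction h with
  | refl => exact Relation.ReflTransGen.refl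
  | tail _ h2 ih =>
    exact Relation.ReflTransGen.head ⟨h2.2.1, h2.1, by rw [Finset.inter_comm]; exact h2.2.2⟩ ih

lemma gen_leaf {n : ℕ} {D : Finset (Finset (Fin n))} (hD : IsForest D)
    (T : Finset (Finset (Fin n))) (hT : T.Nonempty) (hF : ∀ F ∈ T, IsFacet D F) :
    ∃ F ∈ T, T = {F} ∨ ∃ H, (∃ G ∈ T, G ≠ F ∧ H ⊆ G) ∧ ∀ F' ∈ T, F' ≠ F → F ∩ F' ⊆ H := by
  classical
  obtain ⟨F0, hF0⟩ := hT
  obtain ⟨F, hF1, hF2⟩ := hD (T.filter (SameComp D F0)) ⟨F0, by simp [hF0, SameComp]; rfl⟩
    (fun F h => hF F (Finset.mem_filter.mp h).1)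
    (fun F h G h' => Relation.ReflTransGen.trans (Finset.mem_filter.mp h).2.symm
      (Finset.mem_filter.mp h').2)
  rw [Finset.mem_filter] at hF1
  have key : ∀ F' ∈ T, F' ∉ T.filter (SameComp D F0) → F ∩ F' = ∅ := by
    intro F' h1 h2
    by_contra h3
    exact h2 (Finset.mem_filter.mpr ⟨h1, Relation.ReflTransGen.tail hF1.2
      ⟨hF F hF1.1, hF F' h1, Finset.nonempty_iff_ne_empty.mpr h3⟩⟩)
  refine ⟨F, hF1.1, ?_⟩
  rcases hF2 with h | ⟨G, hG, hGF, h⟩
  · by_cases h1 : T = {F}
    · exact Or.inl h1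
    · right
      have : ∃ G ∈ T, G ≠ F := by
        by_contra h2
        push Not at h2
        exact h1 (Finset.eq_singleton_iff_unique_mem.mpr ⟨hF1.1, h2⟩)
      obtain ⟨G, hG, hGF⟩ := this
      refine ⟨∅, ⟨G, hG, hGF, by simp⟩, fun F' h1 h2 => ?_⟩
      rw [key F' h1 (by rw [h]; simpa using h2)]
  · right
    refine ⟨F ∩ G, ⟨G, (Finset.mem_filter.mp hG).1, hGF, Finset.inter_subset_right⟩,
      fun F' h1 h2 => ?_⟩
    by_cases h3 : F' ∈ T.filter (SameComp D F0)
    · exact h F' h3 h2
    · rw [key F' h1 h3]; simp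

lemma surj_T [CharZero K] {n : ℕ} {D : Finset (Finset (Fin n))} (hD : IsForest D) (i j : ℕ)
    (T : Finset (Finset (Fin n))) : (∀ F ∈ T, IsFacet D F ∧ F.card + 1 ≤ 2 * i + j) →
    ∀ h : Finset (Fin n) → K, Lev (i + j) h →
      ∃ g, Lev i g ∧ ∀ F ∈ T, ∀ t ⊆ F, (U K (Fin n) ^ j) g t = h t := by
  induction T using Finset.strongInduction with
  | H T ih =>
    intro hT h hh
    rcases T.eq_empty_or_nonempty with rfl | hne
    · exact ⟨0, fun _ _ => rfl, by simp⟩
    obtain ⟨F, hF, h1 | ⟨H, ⟨G, hG, hGF, hHG⟩, h1⟩⟩ := gen_leaf hD T hne (fun F h => (hT F h).1)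
    · obtain ⟨g, hg, e⟩ := B_surj F i j h (by have := (hT F hF).2; omega) hh
      exact ⟨g, hg, by rw [h1]; simpa using e⟩
    · obtain ⟨g, hg, e⟩ := ih (T.erase F) (Finset.erase_ssubset hF)
        (fun F' h' => hT F' (Finset.mem_of_mem_erase h')) h hh
      obtain ⟨g', hg', z, e'⟩ := rel_surj i j H F (hT F hF).2 (h - (U K (Fin n) ^ j) g)
        (fun t ht => by simp [hh t ht, hg.pow j t ht])
        (fun t _ ht => by simp [e G (Finset.mem_erase.mpr ⟨hGF, hG⟩) t (ht.trans hHG)])
      refine ⟨g + g', fun t ht => by simp [hg t ht, hg' t ht], fun F' hF' t ht => ?_⟩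
      rw [map_add, Pi.add_apply]
      by_cases h2 : F' = F
      · subst h2
        rw [e' t ht]; simp
      · rw [e F' (Finset.mem_erase.mpr ⟨h2, hF'⟩) t ht, loc0 j t, add_zero]
        intro s hs
        apply z
        by_cases h3 : s ⊆ F
        · exact Or.inl ((Finset.subset_inter h3 (hs.trans ht)).trans (h1 F' hF' h2))
        · exact Or.inr h3

theorem result (K : Type u) [Field K] [CharZero K] (n : ℕ) (D : Finset (Finset (Fin n)))
    (hD : IsComplex D) (hp : IsPure D) (hf : IsForest D) (i j : ℕ) :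
    Set.InjOn (fun a => Ideal.Quotient.mk (AI K D) (∑ v, X v) ^ j * a) (piece (AI K D) i) ∨
    Set.SurjOn (fun a => Ideal.Quotient.mk (AI K D) (∑ v, X v) ^ j * a) (piece (AI K D) i)
      (piece (AI K D) (i + j)) := by
  classical
  have hlev : ∀ (f : MvPolynomial (Fin n) K) (k : ℕ), f.IsHomogeneous k →
      Lev k (fun s => coeff (ind s) f) :=
    fun f k h t ht => h.coeff_eq_zero (by rwa [ind_degree])
  by_cases hc : ∃ F, IsFacet D F ∧ 2 * i + j ≤ F.card
  · left
    obtain ⟨F0, hF0, hc⟩ := hc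
    rintro _ ⟨f, h1, rfl⟩ _ ⟨f', h2, rfl⟩ e
    simp only [← map_pow, ← map_mul] at e
    rw [Ideal.Quotient.eq] at e ⊢
    rw [← mul_sub, mem_AI hD] at e
    rw [mem_AI hD]
    intro t ht
    obtain ⟨F, hF, htF⟩ := exists_facet ht
    refine B_inj F i j _ (by rwa [hp F F0 hF hF0]) (hlev _ _ (IsHomogeneous.sub h1 h2))
      (fun s hs => ?_) t htF
    rw [← coeff_L]
    exact e s (hD F hF.1 s hs)
  · right
    push Not at hc
    rintro _ ⟨f, h1, rfl⟩
    obtain ⟨g, hg, e⟩ := surj_T hf i j (D.filter (IsFacet D))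
      (fun F h => ⟨(Finset.mem_filter.mp h).2, hc F (Finset.mem_filter.mp h).2⟩) _ (hlev _ _ h1)
    have hco : ∀ s, coeff (ind s) (∑ t, monomial (ind t) (g t) : MvPolynomial (Fin n) K) = g s := by
      intro s
      rw [coeff_sum, Finset.sum_eq_single s (fun t _ ht => by
        rw [coeff_monomial, if_neg fun h => ht (ind_inj h)]) (by simp), coeff_monomial, if_pos rfl]
    refine ⟨Ideal.Quotient.mk _ (∑ t, monomial (ind t) (g t)), ⟨_, ?_, rfl⟩, ?_⟩
    · refine IsHomogeneous.sum _ _ _ fun t _ => ?_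
      by_cases ht : t.card = i
      · exact isHomogeneous_monomial _ (by rwa [ind_degree])
      · rw [hg t ht, monomial_zero]; exact isHomogeneous_zero _ _ _
    · simp only [← map_pow, ← map_mul]
      rw [Ideal.Quotient.eq, mem_AI hD]
      intro t ht
      obtain ⟨F, hF, htF⟩ := exists_facet ht
      rw [coeff_sub, coeff_L, funext hco, e F (Finset.mem_filter.mpr ⟨hF.1, hF⟩) t htF, sub_self]

end Pool.Agent.Results.MP_cb4cd2_al.ForestSLP
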